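import Pool.Agent.H380.BG.Stm
import Pool.Graph.R_seed8.W688.TW.Sel
import Pool.Graph.R_seed8.W688.TW.Kara
import Pool.Graph.R_seed8.W482.TW.Id2

set_option autoImplicit false

/-! Task PRI of project BG (helper380): mean square over primes. -/

namespace Pool.Agent.H574.BG

open Filter Topology
open Pool.Agent.H575.RD (la)
open Pool.Agent.W475.BG (Prim)

section loc

variable {lam : ℕ → ℝ}

lemma cS_pow' (_ : W388.HeckeSeq 1 lam) {p : ℕ} (hp : p.Prime) (j : ℕ) :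
    W388.cS 1 lam (p ^ (j + 2)) = lam (p ^ (j + 2)) - lam (p ^ j) := by
  rw [Pool.Agent.W482.TW.cS_pow hp j, Pool.Agent.W482.TW.del, if_neg, one_mul]
  intro h
  exact hp.one_lt.ne' (Nat.dvd_one.1 h)

lemma cS_p (_ : W388.HeckeSeq 1 lam) {p : ℕ} (hp : p.Prime) : W388.cS 1 lam p = lam p := by
  have h := Pool.Agent.W482.TW.cS_one (N := 1) (lam := lam) hp
  rwa [pow_one] at h

/-- `|λ(p^j)| ≤ (|λ(p)| + 1)^j` -/
lemma lam_pow_le (H : W388.HeckeSeq 1 lam) {p : ℕ} (hp : p.Prime) (j : ℕ) :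
    |lam (p ^ j)| ≤ (|lam p| + 1) ^ j ∧ |lam (p ^ (j + 1))| ≤ (|lam p| + 1) ^ (j + 1) := by
  have hu : 1 ≤ |lam p| + 1 := by linarith [abs_nonneg (lam p)]
  induction j with
  | zero => simp [H.one]
  | succ j ih =>
    refine ⟨ih.2, ?_⟩
    have h1 : ¬ p ∣ 1 := fun h => hp.one_lt.ne' (Nat.dvd_one.1 h)
    have h2 := H.pow p j hp
    rw [if_neg h1] at h2
    rw [show j + 1 + 1 = j + 2 by ring, h2]
    have h3 : (|lam p| + 1) ^ j ≤ (|lam p| + 1) ^ (j + 1) := pow_le_pow_right₀ hu (by omega)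
    calc |lam p * lam (p ^ (j + 1)) - lam (p ^ j)|
        ≤ |lam p| * |lam (p ^ (j + 1))| + |lam (p ^ j)| := by
          rw [← abs_mul]; exact abs_sub _ _
      _ ≤ |lam p| * (|lam p| + 1) ^ (j + 1) + (|lam p| + 1) ^ (j + 1) := by
          have := mul_le_mul_of_nonneg_left ih.2 (abs_nonneg (lam p))
          linarith [ih.1]
      _ = (|lam p| + 1) ^ (j + 2) := by ring

/-- bound by the first coefficient -/
lemma cS_le_u (H : W388.HeckeSeq 1 lam) {p : ℕ} (hp : p.Prime) (j : ℕ) :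
    W388.cS 1 lam (p ^ (j + 2)) ^ 2 ≤ 4 * ((|lam p| + 1) ^ 2) ^ (j + 2) := by
  have hu : 1 ≤ |lam p| + 1 := by linarith [abs_nonneg (lam p)]
  rw [cS_pow' H hp]
  have h1 : |lam (p ^ (j + 2)) - lam (p ^ j)| ≤ 2 * (|lam p| + 1) ^ (j + 2) := by
    have h2 := (lam_pow_le H hp j).1
    have h3 := (lam_pow_le H hp (j + 1)).2
    have h4 : (|lam p| + 1) ^ j ≤ (|lam p| + 1) ^ (j + 2) := pow_le_pow_right₀ hu (by omega)
    have h5 := abs_sub (lam (p ^ (j + 2))) (lam (p ^ j))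
    rw [show j + 1 + 1 = j + 2 by ring] at h3
    linarith
  calc (lam (p ^ (j + 2)) - lam (p ^ j)) ^ 2 = |lam (p ^ (j + 2)) - lam (p ^ j)| ^ 2 := (sq_abs _).symm
    _ ≤ (2 * (|lam p| + 1) ^ (j + 2)) ^ 2 := pow_le_pow_left₀ (abs_nonneg _) h1 2
    _ = 4 * ((|lam p| + 1) ^ 2) ^ (j + 2) := by
      rw [mul_pow, ← pow_mul, ← pow_mul, mul_comm 2 (j + 2)]; norm_num

/-- bound by the size -/
lemma cS_le_n (H : W388.HeckeSeq 1 lam) {C δ : ℝ} (hC : 0 < C) (hδ : δ < 1)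
    (hb : ∀ n : ℕ, 1 ≤ n → lam n ^ 2 ≤ C * (n : ℝ) ^ (1 - δ)) {p : ℕ} (hp : p.Prime) (j : ℕ) :
    W388.cS 1 lam (p ^ (j + 2)) ^ 2 ≤ 4 * C * (((p ^ (j + 2) : ℕ) : ℝ)) ^ (1 - δ) := by
  rw [cS_pow' H hp]
  have h1 := hb (p ^ (j + 2)) (Nat.one_le_pow _ _ hp.pos)
  have h2 := hb (p ^ j) (Nat.one_le_pow _ _ hp.pos)
  have h3 : (((p ^ j : ℕ) : ℝ)) ^ (1 - δ) ≤ (((p ^ (j + 2) : ℕ) : ℝ)) ^ (1 - δ) := by
    refine Real.rpow_le_rpow (Nat.cast_nonneg _) ?_ (by linarith)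
    exact_mod_cast Nat.pow_le_pow_right hp.pos (by omega)
  have h4 := mul_le_mul_of_nonneg_left h3 hC.le
  nlinarith [sq_nonneg (lam (p ^ (j + 2)) + lam (p ^ j))]

/-- the uniform bound on prime powers -/
lemma key (H : W388.HeckeSeq 1 lam) {C δ : ℝ} (hC : 0 < C) (hδ0 : 0 < δ) (hδ : δ < 1)
    (hb : ∀ n : ℕ, 1 ≤ n → lam n ^ 2 ≤ C * (n : ℝ) ^ (1 - δ)) :
    ∃ K r : ℝ, 0 < K ∧ 0 < r ∧ r < 1 ∧ ∀ p : ℕ, p.Prime → ∀ j : ℕ,
      ArithmeticFunction.vonMangoldt (p ^ (j + 2)) * W388.cS 1 lam (p ^ (j + 2)) ^ 2 /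
        ((p ^ (j + 2) : ℕ) : ℝ) ≤ K * (((2 * lam p ^ 2 + 2) * (p : ℝ) ^ (-(1 + δ / 2))) * r ^ j) := by
  set r : ℝ := (2 : ℝ) ^ (-(δ / 2)) with hr
  have hr0 : 0 < r := by positivity
  have hr1 : r < 1 := Real.rpow_lt_one_of_one_lt_of_neg (by norm_num) (by linarith)
  obtain ⟨J, hJ⟩ := exists_nat_ge (2 / δ + 2)
  have hJ' : 1 + δ ≤ J * (δ / 2) := by
    have h1 : (2 / δ + 2) * (δ / 2) = 1 + δ := by field_simp
    rw [← h1]
    exact mul_le_mul_of_nonneg_right hJ (by linarith)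
  set C2 : ℝ := 2 * C + 2 with hC2
  have hC21 : 1 ≤ C2 := by linarith
  refine ⟨(4 * C2 ^ (J + 1) / r ^ J + 4 * C) * (2 / δ), r, by positivity, hr0, hr1, ?_⟩
  intro p hp j
  have hP2 : (2 : ℝ) ≤ p := by exact_mod_cast hp.two_le
  set P : ℝ := (p : ℝ) with hP
  have hP0 : 0 < P := by linarith
  have hP1 : 1 ≤ P := by linarith
  set U : ℝ := 2 * lam p ^ 2 + 2 with hU
  have hU1 : 2 ≤ U := by have := sq_nonneg (lam p); linarith
  have huU : (|lam p| + 1) ^ 2 ≤ U := by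
    have h1 : |lam p| ^ 2 = lam p ^ 2 := sq_abs _
    nlinarith [sq_nonneg (|lam p| - 1)]
  have hUC : U ≤ C2 * P ^ (1 - δ) := by
    have h1 := hb p hp.one_le
    have h2 : 1 ≤ P ^ (1 - δ) := Real.one_le_rpow hP1 (by linarith)
    rw [hU, hC2]
    nlinarith
  have hcast : ((p ^ (j + 2) : ℕ) : ℝ) = P ^ (j + 2) := by push_cast; rfl
  -- the main bound
  have hmain : W388.cS 1 lam (p ^ (j + 2)) ^ 2 / P ^ (j + 2) ≤
      (4 * C2 ^ (J + 1) / r ^ J + 4 * C) * (U * P ^ (-(1 + δ)) * r ^ j) := by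
    rcases le_total j J with hj | hj
    · have h1 : W388.cS 1 lam (p ^ (j + 2)) ^ 2 ≤ 4 * U ^ (j + 2) :=
        (cS_le_u H hp j).trans (mul_le_mul_of_nonneg_left
          (pow_le_pow_left₀ (by positivity) huU _) (by norm_num))
      have hd1 : P ^ (-δ) ≤ 1 := Real.rpow_le_one_of_one_le_of_nonpos hP1 (by linarith)
      have h2 : U / P ≤ C2 * P ^ (-δ) := by
        rw [div_le_iff₀ hP0, mul_assoc, ← Real.rpow_add_one hP0.ne']
        rw [show -δ + 1 = 1 - δ by ring]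
        exact hUC
      have h3 : (U / P) ^ (j + 1) ≤ C2 ^ (J + 1) * P ^ (-δ) := by
        calc (U / P) ^ (j + 1) ≤ (C2 * P ^ (-δ)) ^ (j + 1) := pow_le_pow_left₀ (by positivity) h2 _
          _ = C2 ^ (j + 1) * (P ^ (-δ)) ^ (j + 1) := mul_pow _ _ _
          _ ≤ C2 ^ (J + 1) * P ^ (-δ) := by
            refine mul_le_mul (pow_le_pow_right₀ hC21 (by omega)) ?_ (by positivity) (by positivity)
            exact pow_le_of_le_one (by positivity) hd1 (by omega)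
      have h4 : W388.cS 1 lam (p ^ (j + 2)) ^ 2 / P ^ (j + 2) ≤
          4 * C2 ^ (J + 1) * (U * P ^ (-(1 + δ))) := by
        calc W388.cS 1 lam (p ^ (j + 2)) ^ 2 / P ^ (j + 2) ≤ 4 * U ^ (j + 2) / P ^ (j + 2) :=
              div_le_div_of_nonneg_right h1 (by positivity)
          _ = 4 * ((U / P) * (U / P) ^ (j + 1)) := by
              rw [← pow_succ' (U / P) (j + 1), div_pow]; ring
          _ ≤ 4 * ((U / P) * (C2 ^ (J + 1) * P ^ (-δ))) := by
              refine mul_le_mul_of_nonneg_left (mul_le_mul_of_nonneg_left h3 (by positivity)) (by norm_num)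
          _ = 4 * C2 ^ (J + 1) * (U * P ^ (-(1 + δ))) := by
              rw [show -(1 + δ) = -δ - 1 by ring, Real.rpow_sub_one hP0.ne']; ring
      refine h4.trans ?_
      have h5 : r ^ J ≤ r ^ j := pow_le_pow_of_le_one hr0.le hr1.le hj
      have h6 : 0 ≤ U * P ^ (-(1 + δ)) := by positivity
      have h7 : 0 ≤ 4 * C * (U * P ^ (-(1 + δ)) * r ^ j) := by positivity
      have h8 : 4 * C2 ^ (J + 1) ≤ 4 * C2 ^ (J + 1) / r ^ J * r ^ j := by
        rw [div_mul_eq_mul_div, le_div_iff₀ (by positivity)]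
        exact mul_le_mul_of_nonneg_left h5 (by positivity)
      nlinarith [mul_le_mul_of_nonneg_right h8 h6]
    · have h1 := cS_le_n H hC hδ hb hp j
      rw [hcast] at h1
      have h2 : W388.cS 1 lam (p ^ (j + 2)) ^ 2 / P ^ (j + 2) ≤
          4 * C * ((P ^ (-(δ / 2))) ^ (j + 2) * (P ^ (-(δ / 2))) ^ (j + 2)) := by
        rw [div_le_iff₀ (by positivity)]
        refine h1.trans (le_of_eq ?_)
        rw [← Real.rpow_natCast (P ^ (-(δ / 2))), ← Real.rpow_mul hP0.le, ← Real.rpow_natCast P,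
          ← Real.rpow_mul hP0.le, ← Real.rpow_add hP0, mul_assoc (4 * C), ← Real.rpow_add hP0]
        congr 2
        ring
      have h3 : (P ^ (-(δ / 2))) ^ (j + 2) ≤ P ^ (-(1 + δ)) := by
        rw [← Real.rpow_natCast (P ^ (-(δ / 2))), ← Real.rpow_mul hP0.le]
        refine Real.rpow_le_rpow_of_exponent_le hP1 ?_
        have h4 : (J : ℝ) ≤ ((j + 2 : ℕ) : ℝ) := by exact_mod_cast (by omega)
        nlinarith
      have h4 : (P ^ (-(δ / 2))) ^ (j + 2) ≤ r ^ j := by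
        have h5 : P ^ (-(δ / 2)) ≤ r := Real.rpow_le_rpow_of_nonpos (by norm_num) hP2 (by linarith)
        calc (P ^ (-(δ / 2))) ^ (j + 2) ≤ r ^ (j + 2) := pow_le_pow_left₀ (by positivity) h5 _
          _ ≤ r ^ j := pow_le_pow_of_le_one hr0.le hr1.le (by omega)
      have h5 : (P ^ (-(δ / 2))) ^ (j + 2) * (P ^ (-(δ / 2))) ^ (j + 2) ≤ P ^ (-(1 + δ)) * r ^ j :=
        mul_le_mul h3 h4 (by positivity) (by positivity)
      have h6 : P ^ (-(1 + δ)) * r ^ j ≤ U * P ^ (-(1 + δ)) * r ^ j := by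
        have : 0 ≤ P ^ (-(1 + δ)) * r ^ j := by positivity
        nlinarith
      have h7 : 0 ≤ 4 * C2 ^ (J + 1) / r ^ J * (U * P ^ (-(1 + δ)) * r ^ j) := by positivity
      have h8 : 4 * C * ((P ^ (-(δ / 2))) ^ (j + 2) * (P ^ (-(δ / 2))) ^ (j + 2)) ≤
          4 * C * (U * P ^ (-(1 + δ)) * r ^ j) :=
        mul_le_mul_of_nonneg_left (h5.trans h6) (by positivity)
      rw [add_mul]
      linarith
  have hlog : ArithmeticFunction.vonMangoldt (p ^ (j + 2)) ≤ P ^ (δ / 2) / (δ / 2) := by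
    rw [ArithmeticFunction.vonMangoldt_apply_pow (by omega), ArithmeticFunction.vonMangoldt_apply_prime hp]
    exact Real.log_le_rpow_div hP0.le (by linarith)
  have hc0 : 0 ≤ W388.cS 1 lam (p ^ (j + 2)) ^ 2 / P ^ (j + 2) := by positivity
  rw [hcast, mul_div_assoc]
  calc ArithmeticFunction.vonMangoldt (p ^ (j + 2)) * (W388.cS 1 lam (p ^ (j + 2)) ^ 2 / P ^ (j + 2))
      ≤ P ^ (δ / 2) / (δ / 2) * ((4 * C2 ^ (J + 1) / r ^ J + 4 * C) * (U * P ^ (-(1 + δ)) * r ^ j)) :=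
        mul_le_mul hlog hmain hc0 (by positivity)
    _ = (4 * C2 ^ (J + 1) / r ^ J + 4 * C) * (2 / δ) * (U * (P ^ (-(1 + δ)) * P ^ (δ / 2)) * r ^ j) := by
        field_simp
    _ = _ := by
        rw [← Real.rpow_add hP0]
        congr 5
        ring

/-- the part of the sum over prime powers which are not primes -/
noncomputable def gg (lam : ℕ → ℝ) (n : ℕ) : ℝ :=
  if n.Prime then 0 else ArithmeticFunction.vonMangoldt n * W388.cS 1 lam n ^ 2 / (n : ℝ)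

/-- `(p, j) ↦ p^(j+2)` -/
def ppw (x : Nat.Primes × ℕ) : ℕ := (x.1 : ℕ) ^ (x.2 + 2)

lemma ppw_inj : Function.Injective ppw := by
  rintro ⟨p, i⟩ ⟨q, j⟩ h
  have h1 : (p : ℕ) ^ (i + 1 + 1) = (q : ℕ) ^ (j + 1 + 1) := h
  have h2 := Nat.Prime.pow_inj p.2 q.2 h1
  have h3 : p = q := Subtype.ext h2.1
  have h4 : i = j := by omega
  rw [h3, h4]

lemma ppw_not_prime (x : Nat.Primes × ℕ) : ¬ (ppw x).Prime := by
  intro h
  exact Nat.Prime.not_prime_pow (by omega : 2 ≤ x.2 + 2) h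

lemma gg_zero {lam : ℕ → ℝ} (n : ℕ) (hn : n ∉ Set.range ppw) : gg lam n = 0 := by
  unfold gg
  split_ifs with h
  · rfl
  · have h1 : ¬ IsPrimePow n := by
      intro hp
      obtain ⟨p, k, hp1, hk, hpk⟩ := (isPrimePow_nat_iff n).1 hp
      rcases Nat.lt_or_ge k 2 with h2 | h2
      · have h3 : k = 1 := by omega
        rw [h3, pow_one] at hpk
        exact h (hpk ▸ hp1)
      · refine hn ⟨(⟨p, hp1⟩, k - 2), ?_⟩
        show p ^ (k - 2 + 2) = n
        rw [Nat.sub_add_cancel h2, hpk]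
    rw [ArithmeticFunction.vonMangoldt_eq_zero_iff.2 h1, zero_mul, zero_div]

lemma gg_nonneg (lam : ℕ → ℝ) (n : ℕ) : 0 ≤ gg lam n := by
  unfold gg
  split_ifs with h
  · exact le_rfl
  · have := ArithmeticFunction.vonMangoldt_nonneg (n := n)
    positivity

lemma gg_summable (H : W388.HeckeSeq 1 lam)
    (hs : ∀ σ : ℝ, 0 < σ → Summable (fun n : ℕ => lam n ^ 2 * (n : ℝ) ^ (-(1 + σ))))
    {C δ : ℝ} (hC : 0 < C) (hδ0 : 0 < δ) (hδ : δ < 1)
    (hb : ∀ n : ℕ, 1 ≤ n → lam n ^ 2 ≤ C * (n : ℝ) ^ (1 - δ)) : Summable (gg lam) := by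
  obtain ⟨K, r, hK, hr0, hr1, hk⟩ := key H hC hδ0 hδ hb
  rw [← ppw_inj.summable_iff gg_zero]
  have h1 : Summable (fun p : Nat.Primes =>
      (2 * lam (p : ℕ) ^ 2 + 2) * ((p : ℕ) : ℝ) ^ (-(1 + δ / 2))) := by
    have h2 : Summable (fun n : ℕ => (2 * lam n ^ 2 + 2) * (n : ℝ) ^ (-(1 + δ / 2))) := by
      have h3 := (hs (δ / 2) (by linarith)).mul_left 2
      have h4 : Summable (fun n : ℕ => 2 * (n : ℝ) ^ (-(1 + δ / 2))) :=
        (Real.summable_nat_rpow.2 (by linarith)).mul_left 2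
      refine (h3.add h4).congr fun n => ?_
      ring
    exact h2.comp_injective (i := fun p : Nat.Primes => (p : ℕ)) Subtype.val_injective
  have h5 : Summable (fun j : ℕ => r ^ j) := summable_geometric_of_lt_one hr0.le hr1
  have h6 := (h1.mul_of_nonneg h5 (fun p => by positivity) (fun j => by positivity)).mul_left K
  refine Summable.of_nonneg_of_le (fun x => gg_nonneg _ _) (fun x => ?_) h6
  show gg lam (ppw x) ≤ _
  unfold gg
  rw [if_neg (ppw_not_prime x)]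
  exact hk x.1 x.1.2 x.2

/-- mean square over primes -/
theorem prim_of (H : W388.HeckeSeq 1 lam) (hR : W388.RSLim lam)
    (hb : ∃ C δ : ℝ, 0 < C ∧ 0 < δ ∧ δ < 1 ∧ ∀ n : ℕ, 1 ≤ n → lam n ^ 2 ≤ C * (n : ℝ) ^ (1 - δ)) :
    Prim (fun n => (lam n : ℂ)) := by
  obtain ⟨C, δ, hC, hδ0, hδ, hb⟩ := hb
  have hG := gg_summable H hR.1 hC hδ0 hδ hb
  have hS := (W688.TW.t_sel Pool.Agent.W482.TW.t_id2 W688.TW.t_kara 1 one_pos lam H hR).1
  intro α β hα hαβ
  have hβ : 0 < β := hα.trans hαβ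
  set D : ℝ := ∑' n, gg lam n with hD
  set F : ℝ → ℝ := fun x => ∑ n ∈ Finset.Icc 1 ⌊x⌋₊,
    ArithmeticFunction.vonMangoldt n * ‖((W388.cS 1 lam n : ℝ) : ℂ)‖ ^ 2 / n with hF
  have hS' : Tendsto (fun x : ℝ => F x / Real.log x) atTop (𝓝 1) := hS
  have hlim : ∀ γ : ℝ, 0 < γ → Tendsto (fun T : ℝ => F (T ^ γ) / Real.log T) atTop (𝓝 γ) := by
    intro γ hγ
    have h1 := (hS'.comp (tendsto_rpow_atTop hγ)).const_mul γ
    rw [mul_one] at h1
    refine h1.congr' ?_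
    filter_upwards [eventually_gt_atTop (1 : ℝ)] with T hT
    simp only [Function.comp]
    rw [Real.log_rpow (by linarith)]
    have := Real.log_pos hT
    field_simp
  have h1 : Tendsto (fun T : ℝ => F (T ^ β) / Real.log T - F (T ^ α) / Real.log T) atTop (𝓝 (β - α)) :=
    (hlim β hβ).sub (hlim α hα)
  have h2 : ∀ᶠ T : ℝ in atTop, (β - α) / 2 < F (T ^ β) / Real.log T - F (T ^ α) / Real.log T :=
    h1.eventually (lt_mem_nhds (by linarith))
  have h3 : ∀ᶠ T : ℝ in atTop, 4 * D / (β - α) ≤ Real.log T :=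
    Real.tendsto_log_atTop.eventually (eventually_ge_atTop _)
  obtain ⟨T1, hT1⟩ := eventually_atTop.1 (h2.and h3)
  refine ⟨(β - α) / (4 * β), max T1 2, by have := sub_pos.2 hαβ; positivity, le_max_right _ _, ?_⟩
  intro T hT
  have hT2 : 2 ≤ T := (le_max_right _ _).trans hT
  have hT0 : 0 < T := by linarith
  obtain ⟨h4, h5⟩ := hT1 T ((le_max_left _ _).trans hT)
  have hlog : 0 < Real.log T := Real.log_pos (by linarith)
  have hfl : ⌊T ^ α⌋₊ ≤ ⌊T ^ β⌋₊ :=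
    Nat.floor_mono (Real.rpow_le_rpow_of_exponent_le (by linarith) hαβ.le)
  set A : Finset ℕ := Finset.Ioc ⌊T ^ α⌋₊ ⌊T ^ β⌋₊ with hA
  have h6 : F (T ^ β) - F (T ^ α) = ∑ n ∈ A,
      ArithmeticFunction.vonMangoldt n * ‖((W388.cS 1 lam n : ℝ) : ℂ)‖ ^ 2 / n := by
    have h7 : ∀ N : ℕ, Finset.Icc 1 N = Finset.Ioc 0 N := fun N => by
      ext x; simp only [Finset.mem_Icc, Finset.mem_Ioc]; omega
    simp only [hF, h7]
    rw [← Finset.sum_Ioc_consecutive _ (Nat.zero_le _) hfl]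
    ring
  have h8 : ∀ n : ℕ, ‖((W388.cS 1 lam n : ℝ) : ℂ)‖ ^ 2 = W388.cS 1 lam n ^ 2 := fun n => by
    rw [Complex.norm_real, Real.norm_eq_abs, sq_abs]
  have h9 : ∑ n ∈ A, ArithmeticFunction.vonMangoldt n * ‖((W388.cS 1 lam n : ℝ) : ℂ)‖ ^ 2 / n ≤
      β * Real.log T * (∑ p ∈ A.filter Nat.Prime, ‖((lam p : ℝ) : ℂ)‖ ^ 2 / (p : ℝ)) + D := by
    rw [← Finset.sum_filter_add_sum_filter_not A Nat.Prime]
    refine add_le_add ?_ ?_
    · rw [Finset.mul_sum]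
      refine Finset.sum_le_sum fun p hp => ?_
      rw [Finset.mem_filter, hA, Finset.mem_Ioc] at hp
      obtain ⟨⟨-, hp2⟩, hp3⟩ := hp
      rw [h8, cS_p H hp3, ArithmeticFunction.vonMangoldt_apply_prime hp3, Complex.norm_real,
        Real.norm_eq_abs, sq_abs, mul_div_assoc]
      have hp0 : (0 : ℝ) < p := by exact_mod_cast hp3.pos
      have h10 : (p : ℝ) ≤ T ^ β := (Nat.le_floor_iff (by positivity)).1 hp2
      have h11 : Real.log p ≤ β * Real.log T := by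
        rw [← Real.log_rpow hT0]
        exact Real.log_le_log hp0 h10
      exact mul_le_mul_of_nonneg_right h11 (by positivity)
    · have h12 : ∑ n ∈ A.filter (fun n => ¬ n.Prime),
          ArithmeticFunction.vonMangoldt n * ‖((W388.cS 1 lam n : ℝ) : ℂ)‖ ^ 2 / n =
          ∑ n ∈ A.filter (fun n => ¬ n.Prime), gg lam n := by
        refine Finset.sum_congr rfl fun n hn => ?_
        rw [Finset.mem_filter] at hn
        unfold gg
        rw [if_neg hn.2, h8]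
      rw [h12]
      exact hG.sum_le_tsum _ (fun n _ => gg_nonneg lam n)
  rw [← sub_div, h6, lt_div_iff₀ hlog] at h4
  have h13 : D ≤ (β - α) / 4 * Real.log T := by
    rw [div_le_iff₀ (by linarith)] at h5
    linarith
  have h14 : (β - α) / 4 * Real.log T ≤
      β * Real.log T * (∑ p ∈ A.filter Nat.Prime, ‖((lam p : ℝ) : ℂ)‖ ^ 2 / (p : ℝ)) := by
    linarith
  have h15 : (β - α) / 4 ≤ β * (∑ p ∈ A.filter Nat.Prime, ‖((lam p : ℝ) : ℂ)‖ ^ 2 / (p : ℝ)) := by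
    have : (β - α) / 4 * Real.log T ≤
      β * (∑ p ∈ A.filter Nat.Prime, ‖((lam p : ℝ) : ℂ)‖ ^ 2 / (p : ℝ)) * Real.log T := by
      linarith
    exact le_of_mul_le_mul_right this hlog
  rw [div_le_iff₀ (by linarith)]
  show (β - α) ≤ (∑ p ∈ A.filter Nat.Prime, ‖((lam p : ℝ) : ℂ)‖ ^ 2 / (p : ℝ)) * (4 * β)
  linarith

end loc

theorem t_PRI : Pool.Agent.H380.BG.S_PRI := fun H hR hb => prim_of H hR hb

end Pool.Agent.H574.BG

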